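import Pool.Agent.J6H16.RZ.FinD
import Pool.Agent.J6H16.RZ.ZX
import Pool.Agent.J6H16.RZ.JR
import Pool.Agent.J6H16.RZ.B0
import Pool.Agent.J6H16.RZ.B1
import Pool.Agent.J6H16.RZ.B2
import Pool.Agent.J6H16.RZ.B3
import Pool.Agent.J6H16.RZ.B7
import Pool.Agent.J6H16.RZ.Y1
import Pool.Agent.J6H16.RZ.Y2
import Pool.Agent.J6H16.RZ.Y3
import Pool.Agent.J6H16.RZ.Y4
import Pool.Agent.J6H16.RZ.Y5
import Pool.Agent.J6H16.RZ.Y6
import Pool.Agent.J6H16.RZ.Y7
import Pool.Agent.J6H16.RZ.Y7b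
import Pool.Agent.J6H16.RZ.Y8
import Pool.Agent.J6H16.RZ.Y9a
import Pool.Agent.J6H16.RZ.Y9b
import Pool.Agent.J6H16.RZ.Y10
import Pool.Agent.J6H16.RZ.Y11
import Pool.Agent.J6H16.RZ.Y12
import Pool.Agent.J6H16.RZ.Y13
import Pool.Agent.J6H16.RZ.Z1
import Pool.Agent.J6H16.RZ.Z2
import Pool.Agent.J6H16.RZ.Z3
import Pool.Agent.J6H16.RZ.Z5
import Pool.Agent.J6H16.RZ.Z6
import Pool.Agent.J6H16.RZ.Z6a
import Pool.Agent.J6H16.RZ.Z6b
import Pool.Agent.J6H16.RZ.Z6c

/-!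
# The Riesz equilibrium measure of the annulus `r ≤ |x| ≤ R` in all odd dimensions `d ≥ 3` for `s = d - 1`

Let `d = 2n+3`, `s = 2n+2 = d - 1`. We determine the equilibrium measure of the annulus `{x ∈ ℝ^d : r ≤ |x| ≤ R}` for the Riesz
kernel `K_s(x) = 1/(s|x|^s)`, for all `0 < r < R`: it is the absolutely continuous measure with the density

`C p(|x|²) / (|x|^(d-2) √((|x|² - r²)(R² - |x|²)))`, `r < |x| < R`,

where `p` is the unique monic polynomial of degree `n+1 = (d-1)/2` with `∑_j p_j J_{j-i} = 0` for `0 ≤ i ≤ n`. Here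
`J_k = ∫_0^r y^(2k) dy / √((r² - y²)(R² - y²))` and `J_{-k} = J_k / (rR)^(2k)` for `k ≥ 0` are complete elliptic integrals
(`J_0 = K/R`, `J_1 = R (K - E)`, `(2k+3) J_{k+2} = (2k+2)(r²+R²) J_{k+1} - (2k+1) r²R² J_k` with `K = K(r/R)`, `E = E(r/R)`), and
`C = 2/(A I(p))`, `A` the area of the unit sphere, `I(p) = ∫_{r²}^{R²} p(u) du/√((u-r²)(R²-u))`. We prove that the system has
exactly one solution and that `p > 0` on `(r², R²)`. The potential is constant on the annulus, and the minimal energy is `π/(s I(p))`.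
The minimizer is unique. For `d = 3`: `p(u) = u - a`, `a = R² (1 - E(r/R)/K(r/R))`, `I(p) = π ((r²+R²)/2 - a)`.

Proof (`Pool.Agent.J6H16.RZ`). By Copson's formula the mean value of `|x-y|^(-s)` over the sphere `|y| = ρ` is, up to a constant,
`(Xρ)^(-(2n+1)) N_n(X,ρ)`, `X = |x|`, `N_n(X,ρ) = ∫_0^(min(X,ρ)²) v^n dv/√((X²-v)(ρ²-v))`, a Legendre function of the second kind:
`N_n = ∑_j a_j a_{n-j} X^(2(n-j)) S_j(X,ρ)`, `S_j = ∫_0^X Y^(2j) d log((Y+ρ)/|Y-ρ|)`, `a_j = C(2j,j)/4^j`. So the potential is a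
combination of the functions `F_k(X) = ∫ ρ^(2k) log((X+ρ)/|X-ρ|) dρ/√((ρ²-r²)(R²-ρ²))`, `k = -n, ..., n+1`, which are computed on
`[r,R]` (the logarithmic potential of the arcsine measure in the variable `ρ²` is constant), for `k < 0` with the inversion
`ρ → rR/ρ`. The positivity of `p` follows from a quadratic form: the conditions say that a Toeplitz form vanishes, and a zero of `p` in
`(r², R²)` would give a sum of two integrals of squares with positive weights that vanishes. The minimum property follows from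
`n! |x-y|^(-s) = ∫₀^∞ t^n exp(-t|x-y|²) dt` and the representation of the Gaussian kernel as a product of two Gaussian kernels.
-/

set_option autoImplicit false

open MeasureTheory Set Real
open scoped ENNReal

namespace Pool.Agent.Results.MP_619363_an.OddDimensions

/-- The Riesz kernel `K_s(x - y) = 1/(s|x - y|^s)` for `s = 2n+2` in dimension `2n+3` (infinite for `x = y`). -/
noncomputable def kernel (n : ℕ) (x y : EuclideanSpace ℝ (Fin (2 * n + 3))) : ℝ≥0∞ :=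
  (ENNReal.ofReal ((2 * (n : ℝ) + 2) * ‖x - y‖ ^ (2 * n + 2)))⁻¹

/-- The Riesz energy `∬ K_s(x - y) dμ(x) dμ(y)`, `s = 2n+2`. -/
noncomputable def energy (n : ℕ) (μ : Measure (EuclideanSpace ℝ (Fin (2 * n + 3)))) : ℝ≥0∞ :=
  ∫⁻ x, ∫⁻ y, kernel n x y ∂μ ∂μ

/-- The annulus `{x : r ≤ |x| ≤ R}` in dimension `2n+3`. -/
def annulus (n : ℕ) (r R : ℝ) : Set (EuclideanSpace ℝ (Fin (2 * n + 3))) := {x | r ≤ ‖x‖ ∧ ‖x‖ ≤ R}

/-- The complete elliptic integral `J_k = ∫_0^r y^(2k) dy / √((r² - y²)(R² - y²))`, `k ≥ 0`. -/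
noncomputable def ellipticJ (r R : ℝ) (k : ℕ) : ℝ :=
  ∫ y in Ioo 0 r, y ^ (2 * k) / Real.sqrt ((r ^ 2 - y ^ 2) * (R ^ 2 - y ^ 2))

/-- `J_k` for `k ≥ 0`, and `J_{-k} = J_k / (rR)^(2k)`. -/
noncomputable def entry (r R : ℝ) (k : ℤ) : ℝ :=
  if 0 ≤ k then ellipticJ r R k.natAbs else ellipticJ r R k.natAbs / (r * R) ^ (2 * k.natAbs)

/-- `p` is monic of degree `n+1` and `∑_{j=0}^{n+1} p_j J_{j-i} = 0` for `i = 0, ..., n`. -/
def IsSolution (r R : ℝ) (n : ℕ) (p : Polynomial ℝ) : Prop :=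
  p.Monic ∧ p.natDegree = n + 1 ∧
    ∀ i : ℕ, i ≤ n → ∑ j ∈ Finset.range (n + 2), p.coeff j * entry r R ((j : ℤ) - (i : ℤ)) = 0

/-- `I(p) = ∫_r^R 2ρ p(ρ²) dρ / √((ρ² - r²)(R² - ρ²)) = ∫_{r²}^{R²} p(u) du / √((u - r²)(R² - u))`. -/
noncomputable def total (r R : ℝ) (p : Polynomial ℝ) : ℝ :=
  ∫ ρ in Ioo r R, p.eval (ρ ^ 2) * (2 * ρ / Real.sqrt ((ρ ^ 2 - r ^ 2) * (R ^ 2 - ρ ^ 2)))

/-- The area of the unit sphere in dimension `2n+3`: the dimension times the volume of the unit ball. -/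
noncomputable def area (n : ℕ) : ℝ :=
  (2 * n + 3) * (volume (Metric.ball (0 : EuclideanSpace ℝ (Fin (2 * n + 3))) 1)).toReal

/-- The density `2 p(|x|²) / (A I(p) |x|^(2n+1) √((|x|² - r²)(R² - |x|²)))` for `r < |x| < R`, and `0` elsewhere. -/
noncomputable def density (n : ℕ) (r R : ℝ) (p : Polynomial ℝ) (x : EuclideanSpace ℝ (Fin (2 * n + 3))) : ℝ :=
  if r < ‖x‖ ∧ ‖x‖ < R then
    2 / (area n * total r R p) * p.eval (‖x‖ ^ 2) /
      (‖x‖ ^ (2 * n + 1) * Real.sqrt ((‖x‖ ^ 2 - r ^ 2) * (R ^ 2 - ‖x‖ ^ 2)))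
  else 0

/-- The measure with this density with respect to the Lebesgue measure. -/
noncomputable def equilibrium (n : ℕ) (r R : ℝ) (p : Polynomial ℝ) : Measure (EuclideanSpace ℝ (Fin (2 * n + 3))) :=
  volume.withDensity fun x => ENNReal.ofReal (density n r R p x)

/-- The complete elliptic integral of the first kind with modulus `k`. -/
noncomputable def ellipticK (k : ℝ) : ℝ := ∫ t in (0 : ℝ)..(π / 2), 1 / Real.sqrt (1 - k ^ 2 * Real.sin t ^ 2)

/-- The complete elliptic integral of the second kind with modulus `k`. -/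
noncomputable def ellipticE (k : ℝ) : ℝ := ∫ t in (0 : ℝ)..(π / 2), Real.sqrt (1 - k ^ 2 * Real.sin t ^ 2)

/-- The constant `a = R² (1 - E(r/R)/K(r/R))`. -/
noncomputable def a (r R : ℝ) : ℝ := R ^ 2 * (1 - ellipticE (r / R) / ellipticK (r / R))

/-- The statement for given `n`, `r`, `R`, `p`. -/
def Determined (n : ℕ) (r R : ℝ) (p : Polynomial ℝ) : Prop :=
  (∀ u : ℝ, r ^ 2 < u → u < R ^ 2 → 0 < p.eval u) ∧ 0 < total r R p ∧
  IsProbabilityMeasure (equilibrium n r R p) ∧ equilibrium n r R p (annulus n r R)ᶜ = 0 ∧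
  (∀ x ∈ annulus n r R, (∫⁻ y, kernel n x y ∂(equilibrium n r R p)) =
    ENNReal.ofReal (π / ((2 * n + 2) * total r R p))) ∧
  energy n (equilibrium n r R p) = ENNReal.ofReal (π / ((2 * n + 2) * total r R p)) ∧
  ∀ ν : Measure (EuclideanSpace ℝ (Fin (2 * n + 3))), IsProbabilityMeasure ν → ν (annulus n r R)ᶜ = 0 →
    energy n (equilibrium n r R p) ≤ energy n ν ∧
      (energy n ν = energy n (equilibrium n r R p) → ν = equilibrium n r R p)

open Pool.J6H16.RZ in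
theorem kernel_eq (n : ℕ) (x y : EuclideanSpace ℝ (Fin (2 * n + 3))) :
    kernel n x y = (ENNReal.ofReal (2 * (n : ℝ) + 2))⁻¹ * kerD n x y := by
  unfold kernel kerD
  have h : (0 : ℝ) < 2 * (n : ℝ) + 2 := by positivity
  rw [ENNReal.ofReal_mul h.le, ENNReal.mul_inv (Or.inl (by simpa using h)) (Or.inl ENNReal.ofReal_ne_top)]

theorem fac_ne_top (n : ℕ) : (ENNReal.ofReal (2 * (n : ℝ) + 2))⁻¹ ≠ ⊤ := by
  have h : (0 : ℝ) < 2 * (n : ℝ) + 2 := by positivity
  simpa using h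

theorem fac_ne_zero (n : ℕ) : (ENNReal.ofReal (2 * (n : ℝ) + 2))⁻¹ ≠ 0 := by
  simp

open Pool.J6H16.RZ in
theorem energy_eq (n : ℕ) (μ : Measure (EuclideanSpace ℝ (Fin (2 * n + 3)))) :
    energy n μ = (ENNReal.ofReal (2 * (n : ℝ) + 2))⁻¹ * enD n μ μ := by
  unfold energy enD
  simp only [kernel_eq]
  simp only [lintegral_const_mul' _ _ (fac_ne_top n)]

open Pool.J6H16.RZ in
theorem core (hb1 : B1) (hy9 : Y9a) (hy10 : Y10) (hy13 : Y13) (hz1 : Z1) (hz2 : Z2) (hz3 : Z3) (hz5 : Z5)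
    (hz6 : Z6) (n : ℕ) (r R : ℝ) (hr : 0 < r) (hrR : r < R) (p : Polynomial ℝ) (hp : IsSolution r R n p) :
    Determined n r R p := by
  obtain ⟨ω, hω, hom⟩ := hz1 n
  obtain ⟨Ω, hΩ, hOM⟩ := hz5 n
  have hp' : Cond r R n p := hp
  obtain ⟨hJ, hpr, hA⟩ := z7x hy13 hb1 n Ω hΩ hOM r R p hr hrR hp'
  have hrel : Ω = 2 * ω * wn n := za hy9 n ω Ω hω hΩ hom hOM
  have harea : Ω = area n := om_ball n Ω hΩ hOM
  have htot : total r R p = JP r R p := rfl
  have hm : equilibrium n r R p = mD n r R p (2 / (Ω * JP r R p)) := by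
    rw [harea]
    rfl
  have hann : annulus n r R = {x | r ≤ ‖x‖ ∧ ‖x‖ ≤ R} := rfl
  rw [← hann] at hA
  have hC : 0 < 2 / (Ω * JP r R p) := by positivity
  have hwn : 0 < wn n := Z8aux.wn_pos n
  have hW : ω * (2 / (Ω * JP r R p)) * (π * wn n) = π / JP r R p := by
    rw [hrel]
    field_simp
  have h5 : ∀ x ∈ annulus n r R, (∫⁻ y, kerD n x y ∂(mD n r R p (2 / (Ω * JP r R p)))) =
      ENNReal.ofReal (π / JP r R p) := by
    intro x hx
    rw [z8x hz2 hz3 hy10 hy13 n ω hω hom r R p _ hr hrR hC hp' x hx.1 hx.2, hW]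
  have hs : (0 : ℝ) < 2 * (n : ℝ) + 2 := by positivity
  have hWs : (ENNReal.ofReal (2 * (n : ℝ) + 2))⁻¹ * ENNReal.ofReal (π / JP r R p) =
      ENNReal.ofReal (π / ((2 * (n : ℝ) + 2) * JP r R p)) := by
    rw [← ENNReal.ofReal_inv_of_pos hs, ← ENNReal.ofReal_mul (inv_nonneg.2 hs.le)]
    congr 1
    field_simp
  refine ⟨hy13 r R n p hr hrR hp', hJ, hm ▸ hpr, hm ▸ hA, ?_, ?_, ?_⟩
  · intro x hx
    rw [hm, htot]
    simp only [kernel_eq]
    rw [lintegral_const_mul' _ _ (fac_ne_top n), h5 x hx, hWs]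
  · have h6 := finD hz6 n _ ENNReal.ofReal_ne_top (annulus n r R) _ _ hA hA h5
    rw [energy_eq, hm, h6.1, htot, hWs]
  · intro ν hν hν0
    have h7 := finD hz6 n _ ENNReal.ofReal_ne_top (annulus n r R) _ ν hA hν0 h5
    rw [energy_eq, energy_eq, hm, h7.1]
    refine ⟨mul_le_mul_right h7.2.1 _, fun h => h7.2.2 ?_⟩
    exact (ENNReal.mul_right_inj (fac_ne_zero n) (fac_ne_top n)).1 h

open Pool.J6H16.RZ in
theorem three (hb1 : B1) (hb7 : B7) (r R : ℝ) (hr : 0 < r) (hrR : r < R) :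
    IsSolution r R 0 (Polynomial.X - Polynomial.C (a r R)) ∧
    total r R (Polynomial.X - Polynomial.C (a r R)) = π * ((r ^ 2 + R ^ 2) / 2 - a r R) := by
  obtain ⟨h1, h2, -, -⟩ := hb7 r R hr hrR
  obtain ⟨i1, i2, i3, i4⟩ := hb1 r R hr hrR
  have ha : a r R = asq r R := rfl
  constructor
  · refine ⟨Polynomial.monic_X_sub_C _, Polynomial.natDegree_X_sub_C _, ?_⟩
    intro i hi
    obtain rfl : i = 0 := by omega
    rw [Finset.sum_range_succ, Finset.sum_range_one]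
    have e0 : (Polynomial.X - Polynomial.C (a r R) : Polynomial ℝ).coeff 0 = -a r R := by simp
    have e1 : (Polynomial.X - Polynomial.C (a r R) : Polynomial ℝ).coeff 1 = 1 := by
      simp [Polynomial.coeff_X, Polynomial.coeff_C]
    rw [e0, e1]
    have e2 : entry r R (((0 : ℕ) : ℤ) - ((0 : ℕ) : ℤ)) = ellipticJ r R 0 := by
      unfold entry
      simp
    have e3 : entry r R (((1 : ℕ) : ℤ) - ((0 : ℕ) : ℤ)) = ellipticJ r R 1 := by
      unfold entry
      simp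
    rw [e2, e3]
    unfold ellipticJ
    have hm : Measurable fun y : ℝ => y ^ 2 := by fun_prop
    have h3 : IntegrableOn (fun y => y ^ (2 * 1) / Real.sqrt ((r ^ 2 - y ^ 2) * (R ^ 2 - y ^ 2))) (Ioo 0 r) := by
      have h4 : IntegrableOn (fun y => y ^ 2 * (1 / Real.sqrt ((r ^ 2 - y ^ 2) * (R ^ 2 - y ^ 2)))) (Ioo 0 r) := by
        refine Integrable.bdd_mul (c := r ^ 2) h1 hm.aestronglyMeasurable ?_
        refine (ae_restrict_iff' measurableSet_Ioo).2 (Filter.Eventually.of_forall fun y hy => ?_)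
        rw [Real.norm_of_nonneg (sq_nonneg y)]
        exact pow_le_pow_left₀ hy.1.le hy.2.le 2
      refine h4.congr (Filter.Eventually.of_forall fun y => ?_)
      show y ^ 2 * (1 / Real.sqrt ((r ^ 2 - y ^ 2) * (R ^ 2 - y ^ 2))) =
        y ^ (2 * 1) / Real.sqrt ((r ^ 2 - y ^ 2) * (R ^ 2 - y ^ 2))
      rw [mul_one_div]
    have h5 : (∫ y in Ioo 0 r, (y ^ 2 - asq r R) / Real.sqrt ((r ^ 2 - y ^ 2) * (R ^ 2 - y ^ 2))) =
        (∫ y in Ioo 0 r, y ^ (2 * 1) / Real.sqrt ((r ^ 2 - y ^ 2) * (R ^ 2 - y ^ 2))) -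
        asq r R * ∫ y in Ioo 0 r, y ^ (2 * 0) / Real.sqrt ((r ^ 2 - y ^ 2) * (R ^ 2 - y ^ 2)) := by
      rw [← integral_const_mul, ← integral_sub h3]
      · refine integral_congr_ae (Filter.Eventually.of_forall fun y => ?_)
        show (y ^ 2 - asq r R) / Real.sqrt ((r ^ 2 - y ^ 2) * (R ^ 2 - y ^ 2)) =
          y ^ (2 * 1) / Real.sqrt ((r ^ 2 - y ^ 2) * (R ^ 2 - y ^ 2)) -
          asq r R * (y ^ (2 * 0) / Real.sqrt ((r ^ 2 - y ^ 2) * (R ^ 2 - y ^ 2)))
        rw [mul_one, mul_zero, pow_zero]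
        ring
      · refine Integrable.const_mul ?_ _
        refine h1.congr (Filter.Eventually.of_forall fun y => ?_)
        show 1 / Real.sqrt ((r ^ 2 - y ^ 2) * (R ^ 2 - y ^ 2)) =
          y ^ (2 * 0) / Real.sqrt ((r ^ 2 - y ^ 2) * (R ^ 2 - y ^ 2))
        rw [mul_zero, pow_zero]
    rw [h5] at h2
    rw [ha]
    linarith
  · have e1 : total r R (Polynomial.X - Polynomial.C (a r R)) =
        ∫ ρ in Ioo r R, (ρ ^ 2 * (2 * ρ / w r R ρ) - a r R * (2 * ρ / w r R ρ)) := by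
      unfold total
      refine integral_congr_ae (Filter.Eventually.of_forall fun ρ => ?_)
      show (Polynomial.X - Polynomial.C (a r R) : Polynomial ℝ).eval (ρ ^ 2) *
        (2 * ρ / Real.sqrt ((ρ ^ 2 - r ^ 2) * (R ^ 2 - ρ ^ 2))) = _
      rw [Polynomial.eval_sub, Polynomial.eval_X, Polynomial.eval_C, sub_mul]
      rfl
    rw [e1, integral_sub i3 (i1.const_mul _), integral_const_mul, i2, i4]
    ring

open Pool.J6H16.RZ in
/-- The equilibrium measure of the annulus `r ≤ |x| ≤ R` in dimension `d = 2n+3` for `s = d - 1`, for all `n` and `0 < r < R`: the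
linear system has exactly one solution `p`, which is positive on `(r², R²)`; `equilibrium n r R p` is a probability measure on the
annulus; its potential on the annulus and its energy are equal to `π/(s I(p))`; every probability measure on the annulus has at
least this energy, with equality only for `equilibrium n r R p`. The coefficients `J_k` of the system in terms of the complete
elliptic integrals `K(r/R)`, `E(r/R)`. For `d = 3`: `p = X - a`, `I(p) = π ((r²+R²)/2 - a)`. -/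
theorem result :
    (∀ (n : ℕ) (r R : ℝ), 0 < r → r < R → (∃! p : Polynomial ℝ, IsSolution r R n p) ∧
      ∀ p : Polynomial ℝ, IsSolution r R n p → Determined n r R p) ∧
    (∀ r R : ℝ, 0 < r → r < R →
      ellipticJ r R 0 = ellipticK (r / R) / R ∧ ellipticJ r R 1 = R * (ellipticK (r / R) - ellipticE (r / R)) ∧
      ∀ k : ℕ, (2 * (k : ℝ) + 3) * ellipticJ r R (k + 2) =
        (2 * k + 2) * (r ^ 2 + R ^ 2) * ellipticJ r R (k + 1) - (2 * k + 1) * (r ^ 2 * R ^ 2) * ellipticJ r R k) ∧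
    ∀ r R : ℝ, 0 < r → r < R →
      IsSolution r R 0 (Polynomial.X - Polynomial.C (a r R)) ∧
      total r R (Polynomial.X - Polynomial.C (a r R)) = π * ((r ^ 2 + R ^ 2) / 2 - a r R) := by
  have h1 : B1 := b1 b0
  have h2 : B2 := b2 b0
  have h3 : B3 := b3 b0
  have hy2 : Y2 := y2 (y1 h1 h3) h1
  have hy3 : Y3 := y3 h1 h2 b7
  have hy5 : Y5 := y5 hy2 hy3 y4
  have hy8 : Y8 := y8 y7 y7b y9a
  have hy10 : Y10 := y10 hy2 hy5 hy8 y9b h1
  have hy13 : Y13 := y13 hy10 (y12 hy3)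
  refine ⟨fun n r R hr hrR => ⟨y11 hy3 r R n hr hrR, fun p hp => ?_⟩, fun r R hr hrR => ⟨(j_zero hr hrR).1,
    j_one b7 hr hrR, fun k => j_rec b7 hr hrR k⟩, fun r R hr hrR => three h1 b7 r R hr hrR⟩
  exact core h1 y9a hy10 hy13 z1 z2 (z3 y6) z5 (z6 z6a z6b z6c) n r R hr hrR p hp

end Pool.Agent.Results.MP_619363_an.OddDimensions
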